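import Pool.Agent.Y599.GG.Final

/-!
# The isomorphism problem for geodetic graphs is GI-complete

Given a graph `G` with `n ≥ 1` vertices, take the complete graph on the vertices of `G`, replace each
of its edges `uv` by a path `u, (u,v), (v,u), v` of length three, attach two pendant vertices to each
`u`, and one to `(u,v)` and one to `(v,u)` if `u` and `v` are adjacent in `G`. The result is a geodetic
graph, computable in polynomial time, which determines `G` up to isomorphism.
-/

namespace Pool.Agent.Results.MP_f934c9_lc.GeodeticGIComplete

open Pool.Agent.NPC Pool.Agent.Y599.GG

/-- 1. The isomorphism problem for geodetic graphs and the graph isomorphism problem are equivalent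
under polynomial-time many-one reductions.
2. Every language that solves the isomorphism problem for geodetic graphs is hard for graph
isomorphism (whatever it does on other inputs).
3. There is a polynomial-time algorithm which decides whether two given geodetic graphs are
isomorphic if and only if graph isomorphism is in `P`. -/
theorem result :
    (Reduces (lang GraphIso) (lang GeodeticIso) ∧ Reduces (lang GeodeticIso) (lang GraphIso)) ∧
    (∀ A : Set (List Bool), SolvesGeodeticIso A → Reduces (lang GraphIso) A) ∧
    ((∃ A : Set (List Bool), InP A ∧ SolvesGeodeticIso A) ↔ InPP GraphIso) :=
  ⟨⟨reduces_of_solves solves_geodeticIso, reduces_lang back_poly back_iff⟩,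
    fun _ hA => reduces_of_solves hA,
    fun ⟨_, h1, h2⟩ => InP.of_reduces (reduces_of_solves h2) h1,
    fun h => ⟨_, h, solves_graphIso⟩⟩

end Pool.Agent.Results.MP_f934c9_lc.GeodeticGIComplete
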